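import Pool.Agent.Helper64.DT.Stmts

set_option autoImplicit false

namespace Pool.Agent.Helper64.DT

open Pool.Agent.Helper64.CT

theorem glu_symm {V : Type} {G : SimpleGraph V} {Dt : Set V → V → V → Bool} {x u v : V} {b : Bool}
    (h : Es G Dt x u v b) : Es G Dt x v u b := by
  obtain ⟨h1, h2, h3⟩ := h
  refine ⟨h2, h1, ?_⟩
  rcases h3 with ⟨h3, h4⟩ | ⟨h3, h4⟩ | ⟨Q, a1, a2, a3, a4, a5, a6⟩
  · exact Or.inl ⟨h3.symm, h4⟩
  · exact Or.inr (Or.inl ⟨h3.symm, h4⟩)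
  · exact Or.inr (Or.inr ⟨Q, a1, a2, a3, a5, a4, by rw [a6, Bool.xor_comm]⟩)

theorem st_GLU (h1 : ST_BAL) (h2 : ST_SGN) (h3 : ST_CY3) (h4 : ST_CY4) : ST_GLU := by
  intro V G hDF hP hCI Dθ Dσ Dt hD x
  rcases h1 V (fun u v b => Es G Dt x u v b) (fun u v b h => glu_symm h) with
    ⟨f, hf⟩ | ⟨u, hu⟩ | ⟨u, v, huv⟩ | ⟨t, y, b, ht, hyp, hbp, hE, hodd, hg, hne, hind⟩
  · refine ⟨f, fun y z h => ?_, fun y z h => ?_, fun Q hQ hB hx => ?_⟩
    · have h5 := hf y z false ⟨h.left, h.right, Or.inl ⟨h, rfl⟩⟩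
      cases h6 : f y <;> cases h7 : f z <;> rw [h6, h7] at h5 <;> simp at h5 ⊢
    · have h5 := hf y z true ⟨h.far.1, h.far.2, Or.inr (Or.inl ⟨h, rfl⟩)⟩
      cases h6 : f y <;> cases h7 : f z <;> rw [h6, h7] at h5 <;> simp at h5 ⊢
    · by_cases hu : ∃ u ∈ Far G x, Tch G x Q u
      · obtain ⟨u, hu1, hu2⟩ := hu
        refine ⟨xor (f u) (Dt Q x u), fun v hv1 hv2 => ?_⟩
        have h5 := hf v u _ ⟨hv1, hu1, Or.inr (Or.inr ⟨Q, hQ, hB, hx, hv2, hu2, rfl⟩)⟩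
        cases h6 : f u <;> cases h7 : f v <;> cases h8 : Dt Q x u <;> cases h9 : Dt Q x v <;>
          rw [h6, h7, h8, h9] at h5 <;> simp at h5 ⊢
      · exact ⟨false, fun u hu1 hu2 => absurd ⟨u, hu1, hu2⟩ hu⟩
  · exact absurd hu (h2 V G hDF hP Dθ Dσ Dt hD x u u).2
  · exact absurd huv (h2 V G hDF hP Dθ Dσ Dt hD x u v).1
  · exfalso
    rcases Nat.lt_or_ge t 4 with h5 | h5
    · obtain rfl : t = 3 := by omega
      have e3 : y 3 = y 0 := hyp 0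
      have e2 : Es G Dt x (y 2) (y 0) (b 2) := by
        have := hE 2
        rw [show (2 + 1 : ℕ) = 3 from rfl, e3] at this
        exact this
      refine h3 V G hDF hP hCI Dθ Dσ Dt hD x (y 0) (y 1) (y 2) (b 0) (b 1) (b 2) (hE 0) (hE 1) e2 ?_
      rw [Finset.card_filter, Finset.sum_range_succ, Finset.sum_range_succ, Finset.sum_range_succ,
        Finset.sum_range_zero] at hodd
      revert hodd
      cases b 0 <;> cases b 1 <;> cases b 2 <;> simp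
    · exact h4 V G hDF hP hCI Dθ Dσ Dt hD x t y b h5 hyp hbp hE hg (fun i j hi hj => (hind i j hi hj).2)

end Pool.Agent.Helper64.DT
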